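import Pool.Agent.H339Z.Bz.Defs

set_option autoImplicit false

namespace Pool.Agent.H339Z.Bz

open MeasureTheory Set Filter Topology

namespace SigmaForm

/-- the integrand -/
noncomputable def Ph (γ : ℝ) (b : ℝ → ℝ) (f : ℂ → ℝ) (v : ℂ) (p : ℂ × ℝ) : ℝ :=
  (‖p.1‖ ^ γ * b (Real.cos p.2)) *
    (f (v - Ac p.2 * p.1) * f (v - Bc p.2 * p.1) - f (v - p.1) * f v)

theorem periodic (γ : ℝ) (b : ℝ → ℝ) (f : ℂ → ℝ) (v u : ℂ) :
    Function.Periodic (fun θ => Ph γ b f v (u, θ)) (2 * Real.pi) := by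
  intro θ
  have h : Complex.exp (((θ + 2 * Real.pi : ℝ) : ℂ) * Complex.I) =
      Complex.exp (θ * Complex.I) := by
    push_cast
    rw [add_mul, Complex.exp_add, Complex.exp_two_pi_mul_I, mul_one]
  simp only [Ph, Ac, Bc, h, Real.cos_add_two_pi]

theorem coll_eq (γ : ℝ) (b : ℝ → ℝ) (f : ℂ → ℝ) (v w : ℂ) (hw : w ≠ v) (φ : ℝ) :
    coll γ b f v w φ = Ph γ b f v (v - w, φ - Complex.arg (v - w)) := by
  have hu : v - w ≠ 0 := sub_ne_zero.2 hw.symm
  have hn : (‖v - w‖ : ℂ) ≠ 0 := by exact_mod_cast norm_ne_zero_iff.2 hu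
  have h1 := Complex.norm_mul_exp_arg_mul_I (v - w)
  set θ := φ - Complex.arg (v - w) with hθ
  have h2 : Complex.exp (φ * Complex.I) =
      Complex.exp (θ * Complex.I) * Complex.exp (Complex.arg (v - w) * Complex.I) := by
    rw [← Complex.exp_add, hθ]
    congr 1
    push_cast
    ring
  have h3 : (‖v - w‖ : ℂ) * Complex.exp (φ * Complex.I) = Complex.exp (θ * Complex.I) * (v - w) := by
    rw [h2]
    conv_rhs => rw [← h1]
    ring
  have e1 : (v + w) / 2 - (‖v - w‖ / 2 : ℝ) * Complex.exp (φ * Complex.I) =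
      v - Ac θ * (v - w) := by
    simp only [Ac]
    push_cast
    linear_combination (-1 / 2 : ℂ) * h3
  have e2 : (v + w) / 2 + (‖v - w‖ / 2 : ℝ) * Complex.exp (φ * Complex.I) =
      v - Bc θ * (v - w) := by
    simp only [Bc]
    push_cast
    linear_combination (1 / 2 : ℂ) * h3
  have e3 : (v - w) / (‖v - w‖ : ℝ) = Complex.exp (Complex.arg (v - w) * Complex.I) := by
    rw [div_eq_iff hn, mul_comm]
    exact h1.symm
  have e4 : inner ℝ ((v - w) / (‖v - w‖ : ℝ)) (Complex.exp (φ * Complex.I)) = Real.cos θ := by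
    rw [e3, Complex.inner, hθ, Real.cos_sub]
    simp [Complex.exp_ofReal_mul_I_re, Complex.exp_ofReal_mul_I_im]
  simp only [coll, Ph, e1, e2, e4, sub_sub_cancel]
  ring

theorem shift {g : ℝ → ℝ} (hg : Function.Periodic g (2 * Real.pi)) (a : ℝ) :
    ∫ φ in (0 : ℝ)..(2 * Real.pi), g (φ - a) = ∫ θ in Ioc (-Real.pi) Real.pi, g θ := by
  rw [intervalIntegral.integral_comp_sub_right, ← intervalIntegral.integral_of_le
    (by linarith [Real.pi_pos])]
  have := hg.intervalIntegral_add_eq (0 - a) (-Real.pi)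
  rw [show 0 - a + 2 * Real.pi = 2 * Real.pi - a by ring,
    show -Real.pi + 2 * Real.pi = Real.pi by ring] at this
  exact this

end SigmaForm

open SigmaForm in
theorem sigma_form (γ : ℝ) (b : ℝ → ℝ) (f : ℂ → ℝ) (v : ℂ)
    (hi : Integrable (fun p : ℂ × ℝ => (‖p.1‖ ^ γ * b (Real.cos p.2)) *
      (f (v - Ac p.2 * p.1) * f (v - Bc p.2 * p.1) - f (v - p.1) * f v)) mu) :
    (∀ᵐ w : ℂ, IntervalIntegrable (coll γ b f v w) volume 0 (2 * Real.pi)) ∧
    Integrable (fun w : ℂ => ∫ φ in (0 : ℝ)..(2 * Real.pi), |coll γ b f v w φ|) ∧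
    ∫ w : ℂ, ∫ φ in (0 : ℝ)..(2 * Real.pi), coll γ b f v w φ =
      ∫ p : ℂ × ℝ, (‖p.1‖ ^ γ * b (Real.cos p.2)) *
        (f (v - Ac p.2 * p.1) * f (v - Bc p.2 * p.1) - f (v - p.1) * f v) ∂mu := by
  change Integrable (Ph γ b f v) mu at hi
  have hne : ∀ᵐ w : ℂ, w ≠ v := by
    rw [ae_iff]
    simp
  have hpi := Real.pi_pos
  refine ⟨?_, ?_, ?_⟩
  · have h1 := (Measure.measurePreserving_sub_left (volume : Measure ℂ) v).quasiMeasurePreserving.ae
      hi.prod_right_ae
    filter_upwards [h1, hne] with w h2 hw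
    have h3 : IntervalIntegrable (fun θ => Ph γ b f v (v - w, θ)) volume (-Real.pi)
        (-Real.pi + 2 * Real.pi) := by
      rw [intervalIntegrable_iff_integrableOn_Ioc_of_le (by linarith),
        show -Real.pi + 2 * Real.pi = Real.pi by ring]
      exact h2
    have h4 := ((periodic γ b f v (v - w)).intervalIntegrable (by positivity) h3
      (0 - Complex.arg (v - w)) (2 * Real.pi - Complex.arg (v - w))).comp_sub_right
        (Complex.arg (v - w))
    simp only [sub_add_cancel] at h4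
    have : coll γ b f v w = fun φ => Ph γ b f v (v - w, φ - Complex.arg (v - w)) :=
      funext fun φ => coll_eq γ b f v w hw φ
    rw [this]
    exact h4
  · have h1 := hi.integral_norm_prod_left.comp_sub_left v
    refine h1.congr ?_
    filter_upwards [hne] with w hw
    simp only [coll_eq γ b f v w hw]
    have hp : Function.Periodic (fun θ => |Ph γ b f v (v - w, θ)|) (2 * Real.pi) :=
      (periodic γ b f v (v - w)).comp abs
    rw [shift hp]
    rfl
  · change _ = ∫ p, Ph γ b f v p ∂mu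
    rw [mu, integral_prod _ hi, ← integral_sub_left_eq_self _ volume v]
    refine integral_congr_ae ?_
    filter_upwards [(Measure.measurePreserving_sub_left (volume : Measure ℂ)
      v).quasiMeasurePreserving.ae hne] with u hu
    simp only [coll_eq γ b f v _ hu, sub_sub_cancel]
    exact shift (periodic γ b f v u) _

end Pool.Agent.H339Z.Bz
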